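import Mathlib
import Pool.Agent.Q18.KRX.Stm

/-!
# Job IND: from index `p` to `p`-power index
-/

open scoped Classical

noncomputable section

namespace Pool.Agent.Q19.KRX

open Pool.Agent.Q18.KRX

variable {p : ℕ} [hp : Fact p.Prime] {Γ : Type} [Group Γ] [Finite Γ]

lemma relIndex_dvd {G M K : Subgroup Γ} (hn : ∀ h ∈ M, ∀ g ∈ G, h * g * h⁻¹ ∈ G) (hK : K ≤ M) :
    G.relIndex K ∣ G.relIndex M := by
  have hN : (G.subgroupOf M).Normal := by
    constructor
    intro n hn' g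
    rw [Subgroup.mem_subgroupOf] at hn' ⊢
    exact hn _ g.2 _ hn'
  have h1 := Subgroup.relIndex_dvd_index_of_normal (G.subgroupOf M) (K.subgroupOf M)
  rwa [Subgroup.relIndex_subgroupOf hK] at h1

/-- a normal subgroup of index `p` between -/
lemma exists_M {G H : Subgroup Γ} (hGH : G ≤ H) (hn : ∀ h ∈ H, ∀ g ∈ G, h * g * h⁻¹ ∈ G)
    {n : ℕ} (hidx : G.relIndex H = p ^ (n + 1)) :
    ∃ M : Subgroup Γ, G ≤ M ∧ M ≤ H ∧ (∀ h ∈ H, ∀ m ∈ M, h * m * h⁻¹ ∈ M) ∧
      M.relIndex H = p ∧ G.relIndex M = p ^ n := by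
  have hN : (G.subgroupOf H).Normal := by
    constructor
    intro n hn' g
    rw [Subgroup.mem_subgroupOf] at hn' ⊢
    exact hn _ g.2 _ hn'
  have hcard : Nat.card (H ⧸ G.subgroupOf H) = p ^ (n + 1) := hidx
  obtain ⟨K, hK⟩ := Sylow.exists_subgroup_card_pow_prime (G := H ⧸ G.subgroupOf H) p (n := n)
    (by rw [hcard]; exact pow_dvd_pow p (Nat.le_succ n))
  have hKidx : K.index = p := by
    have h1 := K.card_mul_index
    rw [hK, hcard, pow_succ] at h1
    exact Nat.eq_of_mul_eq_mul_left (pow_pos hp.out.pos n) h1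
  have hKn : K.Normal := by
    apply Subgroup.normal_of_index_eq_minFac_card
    rw [hKidx, hcard, Nat.Prime.pow_minFac hp.out (Nat.succ_ne_zero n)]
  set N : Subgroup H := K.comap (QuotientGroup.mk' (G.subgroupOf H)) with hNdef
  have hNn : N.Normal := hKn.comap _
  have hNidx : N.index = p := by
    rw [hNdef, Subgroup.index_comap_of_surjective _ (QuotientGroup.mk'_surjective _), hKidx]
  set M : Subgroup Γ := N.map H.subtype with hM
  have hMH : M ≤ H := by
    rw [hM]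
    exact Subgroup.map_subtype_le N
  have hMs : M.subgroupOf H = N :=
    Subgroup.comap_map_eq_self_of_injective H.subtype_injective N
  have hGM : G ≤ M := by
    intro g hg
    rw [hM, Subgroup.mem_map]
    refine ⟨⟨g, hGH hg⟩, ?_, rfl⟩
    rw [hNdef, Subgroup.mem_comap]
    have : (QuotientGroup.mk' (G.subgroupOf H)) ⟨g, hGH hg⟩ = 1 := by
      rw [QuotientGroup.mk'_apply, QuotientGroup.eq_one_iff, Subgroup.mem_subgroupOf]
      exact hg
    rw [this]
    exact one_mem _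
  have hMidx : M.relIndex H = p := by
    change (M.subgroupOf H).index = p
    rw [hMs, hNidx]
  refine ⟨M, hGM, hMH, ?_, hMidx, ?_⟩
  · intro h hh m hm
    have h1 : (⟨m, hMH hm⟩ : H) ∈ N := by
      rw [← hMs, Subgroup.mem_subgroupOf]
      exact hm
    have h2 := hNn.conj_mem _ h1 ⟨h, hh⟩
    rw [← hMs, Subgroup.mem_subgroupOf] at h2
    exact h2
  · have h1 := Subgroup.relIndex_mul_relIndex G M H hGM hMH
    rw [hMidx, hidx, pow_succ] at h1
    exact Nat.eq_of_mul_eq_mul_right hp.out.pos h1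

/-- elements of a join of commuting subgroups -/
lemma mem_sup_comm {U V : Subgroup Γ} (hc : V ≤ Subgroup.centralizer (U : Set Γ)) {x : Γ} :
    x ∈ U ⊔ V ↔ ∃ u ∈ U, ∃ v ∈ V, u * v = x := by
  constructor
  · intro hx
    let T : Subgroup Γ :=
      { carrier := {x | ∃ u ∈ U, ∃ v ∈ V, u * v = x}
        one_mem' := ⟨1, one_mem _, 1, one_mem _, by simp⟩
        mul_mem' := by
          rintro _ _ ⟨u, hu, v, hv, rfl⟩ ⟨u', hu', v', hv', rfl⟩
          refine ⟨u * u', mul_mem hu hu', v * v', mul_mem hv hv', ?_⟩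
          have h := Subgroup.mem_centralizer_iff.1 (hc hv) u' hu'
          calc u * u' * (v * v') = u * (u' * v) * v' := by group
            _ = u * (v * u') * v' := by rw [h]
            _ = u * v * (u' * v') := by group
        inv_mem' := by
          rintro _ ⟨u, hu, v, hv, rfl⟩
          refine ⟨u⁻¹, inv_mem hu, v⁻¹, inv_mem hv, ?_⟩
          have h := Subgroup.mem_centralizer_iff.1 (hc hv) u hu
          rw [← mul_inv_rev, h] }
    have h1 : U ⊔ V ≤ T := sup_le (fun u hu => ⟨u, hu, 1, one_mem _, by simp⟩)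
      (fun v hv => ⟨1, one_mem _, v, hv, by simp⟩)
    exact h1 hx
  · rintro ⟨u, hu, v, hv, rfl⟩
    exact mul_mem (Subgroup.mem_sup_left hu) (Subgroup.mem_sup_right hv)

lemma inf_eq_bot {U M : Subgroup Γ} (hU : Nat.card U = p) (h : ¬ U ≤ M) {x : Γ} (hx : x ∈ U)
    (hxM : x ∈ M) : x = 1 := by
  have : Fact (Nat.card U).Prime := by rw [hU]; exact hp
  rcases (M.subgroupOf U).eq_bot_or_eq_top_of_prime_card with h1 | h1
  · have h2 : (⟨x, hx⟩ : U) ∈ M.subgroupOf U := by rw [Subgroup.mem_subgroupOf]; exact hxM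
    rw [h1, Subgroup.mem_bot] at h2
    exact congrArg Subtype.val h2
  · exact absurd (Subgroup.subgroupOf_eq_top.1 h1) h

lemma pow_card {U : Subgroup Γ} (hU : Nat.card U = p) {x : Γ} (hx : x ∈ U) : x ^ p = 1 := by
  have h1 : (⟨x, hx⟩ : U) ^ p = 1 := by
    have := pow_card_eq_one' (x := (⟨x, hx⟩ : U))
    rwa [hU] at this
  exact congrArg Subtype.val h1

section Fix

variable {G M H U : Subgroup Γ} (hGM : G ≤ M) (hMH : M ≤ H)
  (hMn : ∀ h ∈ H, ∀ m ∈ M, h * m * h⁻¹ ∈ M) (hMidx : M.relIndex H = p)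
  (hUH : U ≤ H) (hU : Nat.card U = p) (hUM : ¬ U ≤ M)

include hU hUM in
/-- (a): intersection with `M` -/
lemma sup_inf {V : Subgroup Γ} (hV : V ≤ M) (hc : V ≤ Subgroup.centralizer (U : Set Γ)) :
    (U ⊔ V) ⊓ M = V := by
  apply le_antisymm
  · rintro x ⟨hx, hxM⟩
    obtain ⟨u, hu, v, hv, rfl⟩ := (mem_sup_comm hc).1 hx
    have h0 : v ∈ M := hV hv
    have h0' : u * v ∈ M := hxM
    have h1 : u ∈ M := by
      have := mul_mem h0' (inv_mem h0)
      rwa [mul_inv_cancel_right] at this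
    rw [inf_eq_bot hU hUM hu h1, one_mul]
    exact hv
  · exact le_inf le_sup_right hV

lemma centralizer_sup {V : Subgroup Γ} :
    Subgroup.centralizer ((U ⊔ V : Subgroup Γ) : Set Γ) =
      Subgroup.centralizer (U : Set Γ) ⊓ Subgroup.centralizer (V : Set Γ) := by
  apply le_antisymm
  · exact le_inf (Subgroup.centralizer_le (le_sup_left : U ≤ U ⊔ V))
      (Subgroup.centralizer_le (le_sup_right : V ≤ U ⊔ V))
  · rw [Subgroup.le_centralizer_iff]
    exact sup_le (Subgroup.le_centralizer_iff.1 inf_le_left)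
      (Subgroup.le_centralizer_iff.1 inf_le_right)

include hMn hMidx in
lemma relIndex_M {W : Subgroup Γ} (hW : W ≤ H) (hWM : ¬ W ≤ M) : M.relIndex W = p := by
  have h1 := relIndex_dvd (G := M) (M := H) (K := W) hMn hW
  rw [hMidx, Nat.dvd_prime hp.out] at h1
  rcases h1 with h1 | h1
  · exact absurd (Subgroup.relIndex_eq_one.1 h1) hWM
  · exact h1

include hMn hMidx hUM in
/-- (b) -/
lemma sup_eq {W : Subgroup Γ} (hW : W ≤ H) (hUW : U ≤ W) : U ⊔ (W ⊓ M) = W := by
  have hWM : ¬ W ≤ M := fun h => hUM (hUW.trans h)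
  have h1 : (W ⊓ M).relIndex W = p := by
    rw [inf_comm, Subgroup.inf_relIndex_right]
    exact relIndex_M hMn hMidx hW hWM
  have hle : U ⊔ (W ⊓ M) ≤ W := sup_le hUW inf_le_left
  have h2 := Subgroup.relIndex_mul_relIndex (W ⊓ M) (U ⊔ (W ⊓ M)) W le_sup_right hle
  rw [h1] at h2
  have h3 : (W ⊓ M).relIndex (U ⊔ (W ⊓ M)) ≠ 1 := by
    intro h
    rw [Subgroup.relIndex_eq_one] at h
    exact hUM ((le_sup_left.trans h).trans inf_le_right)
  have h4 : (U ⊔ (W ⊓ M)).relIndex W = 1 := by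
    have h5 : (U ⊔ (W ⊓ M)).relIndex W ∣ p := Dvd.intro_left _ h2
    rw [Nat.dvd_prime hp.out] at h5
    rcases h5 with h5 | h5
    · exact h5
    · rw [h5] at h2
      have h6 : (W ⊓ M).relIndex (U ⊔ (W ⊓ M)) = 1 := by
        have := hp.out.pos
        nlinarith
      exact absurd h6 h3
  exact le_antisymm hle (Subgroup.relIndex_eq_one.1 h4)

end Fix

attribute [local instance] Fintype.ofFinite

/-- elementary abelian -/
def EA (p : ℕ) (W : Subgroup Γ) : Prop :=
  (∀ x ∈ W, x ^ p = 1) ∧ (∀ x ∈ W, ∀ y ∈ W, x * y = y * x)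

/-- the subgroups `U` for the pair `(M, W)` -/
def UU (p : ℕ) (M W : Subgroup Γ) : Finset (Subgroup Γ) :=
  Finset.univ.filter fun U : Subgroup Γ => U ≤ W ∧ Nat.card U = p ∧ ¬ U ≤ M ∧
    W ⊓ M ≤ Subgroup.centralizer (U : Set Γ)

lemma card_filter_mem (W : Subgroup Γ) :
    (Finset.univ.filter fun x : Γ => x ∈ W).card = Nat.card W := by
  rw [Nat.card_eq_fintype_card, Fintype.card_subtype]

lemma card_inf {M W : Subgroup Γ} (hM : M.relIndex W = p) {s : ℕ}
    (hs : Nat.card W = p ^ (s + 1)) : Nat.card (W ⊓ M : Subgroup Γ) = p ^ s := by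
  have h1 := Subgroup.relIndex_mul_relIndex ⊥ (W ⊓ M) W bot_le inf_le_left
  rw [Subgroup.relIndex_bot_left, Subgroup.relIndex_bot_left, Subgroup.inf_relIndex_left, hM, hs,
    pow_succ] at h1
  exact Nat.eq_of_mul_eq_mul_right hp.out.pos h1

lemma mu_pos {W : Subgroup Γ} (h : EA p W) : mu p W =
    (-1) ^ (Nat.card W).factorization p *
      (p : ℤ) ^ ((Nat.card W).factorization p * ((Nat.card W).factorization p - 1) / 2) :=
  if_pos h

lemma mu_neg {W : Subgroup Γ} (h : ¬ EA p W) : mu p W = 0 := if_neg h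

lemma card_UU {M W : Subgroup Γ} (hea : EA p W) (hM : M.relIndex W = p) {s : ℕ}
    (hs : Nat.card W = p ^ (s + 1)) : (UU p M W).card = p ^ s := by
  have hWM : Nat.card (W ⊓ M : Subgroup Γ) = p ^ s := by
    exact card_inf hM hs
  have hp1 : 0 < p - 1 := by have := hp.out.two_le; omega
  apply Nat.eq_of_mul_eq_mul_right hp1
  set A : Finset Γ := (Finset.univ.filter fun x : Γ => x ∈ W).filter fun x => ¬ x ∈ M with hA
  have hAcard : A.card = p ^ s * (p - 1) := by
    have h1 := Finset.card_filter_add_card_filter_not (s := Finset.univ.filter fun x : Γ => x ∈ W)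
      (fun x => x ∈ M)
    rw [Finset.filter_filter, card_filter_mem, hs] at h1
    have h2 : (Finset.univ.filter fun x : Γ => x ∈ W ∧ x ∈ M).card = p ^ s := by
      rw [← hWM, ← card_filter_mem]
      congr 1
      ext x
      simp [Subgroup.mem_inf]
    rw [h2, ← hA] at h1
    rw [Nat.mul_sub, mul_one, ← pow_succ]
    omega
  rw [← hAcard]
  have hmap : ∀ x ∈ A, Subgroup.zpowers x ∈ UU p M W := by
    intro x hx
    rw [hA, Finset.mem_filter, Finset.mem_filter] at hx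
    obtain ⟨⟨_, hxW⟩, hxM⟩ := hx
    rw [UU, Finset.mem_filter]
    refine ⟨Finset.mem_univ _, ?_, ?_, ?_, ?_⟩
    · rwa [Subgroup.zpowers_le]
    · rw [Nat.card_zpowers]
      apply orderOf_eq_prime (hea.1 x hxW)
      rintro rfl
      exact hxM (one_mem _)
    · rwa [Subgroup.zpowers_le]
    · intro y hy
      rw [Subgroup.mem_centralizer_iff]
      intro h hh
      have h3 : h ∈ W := (Subgroup.zpowers_le.2 hxW) hh
      exact hea.2 h h3 y hy.1
  rw [Finset.card_eq_sum_card_fiberwise (t := UU p M W) hmap]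
  rw [Finset.sum_const_nat (m := p - 1)]
  intro U hU
  rw [UU, Finset.mem_filter] at hU
  obtain ⟨_, hUW, hUc, hUM, _⟩ := hU
  have h4 : (A.filter fun x => Subgroup.zpowers x = U) =
      (Finset.univ.filter fun x : Γ => x ∈ U).erase 1 := by
    ext x
    simp only [hA, Finset.mem_filter, Finset.mem_univ, true_and, Finset.mem_erase]
    constructor
    · rintro ⟨⟨_, hxM⟩, rfl⟩
      refine ⟨?_, Subgroup.mem_zpowers x⟩
      rintro rfl
      exact hxM (one_mem _)
    · rintro ⟨hx1, hxU⟩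
      refine ⟨⟨hUW hxU, fun h => hx1 (inf_eq_bot hUc hUM hxU h)⟩, ?_⟩
      apply Subgroup.eq_of_le_of_card_ge (Subgroup.zpowers_le.2 hxU)
      rw [hUc, Nat.card_zpowers, orderOf_eq_prime (pow_card hUc hxU) hx1]
  rw [h4, Finset.card_erase_of_mem (by simp), card_filter_mem, hUc]

lemma mu_key {M H W : Subgroup Γ} (hMn : ∀ h ∈ H, ∀ m ∈ M, h * m * h⁻¹ ∈ M)
    (hMidx : M.relIndex H = p) (hW : W ≤ H) (hWM : ¬ W ≤ M) (hpW : IsPGroup p W) :
    mu p W = -(((UU p M W).card : ℤ) * mu p (W ⊓ M)) := by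
  have hidx := relIndex_M hMn hMidx hW hWM
  by_cases hea : EA p W
  · obtain ⟨r, hr⟩ := IsPGroup.iff_card.1 hpW
    have hr0 : r ≠ 0 := by
      rintro rfl
      rw [pow_zero, Subgroup.card_eq_one] at hr
      exact hWM (by rw [hr]; exact bot_le)
    obtain ⟨s, rfl⟩ := Nat.exists_eq_succ_of_ne_zero hr0
    have hcard := card_UU hea hidx hr
    have hWMc : Nat.card (W ⊓ M : Subgroup Γ) = p ^ s := by
      exact card_inf hidx hr
    have hea' : EA p (W ⊓ M) := ⟨fun x hx => hea.1 x hx.1, fun x hx y hy => hea.2 x hx.1 y hy.1⟩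
    rw [mu_pos hea, mu_pos hea', hcard, hr, hWMc, Nat.Prime.factorization_pow hp.out,
      Nat.Prime.factorization_pow hp.out, Finsupp.single_eq_same, Finsupp.single_eq_same]
    have h5 : (s + 1) * (s + 1 - 1) / 2 = s * (s - 1) / 2 + s := Nat.triangle_succ s
    rw [h5, pow_succ, pow_add]
    push_cast
    ring
  · rw [mu_neg hea]
    by_contra hne
    have h1 : ((UU p M W).card : ℤ) * mu p (W ⊓ M) ≠ 0 := by
      intro h
      rw [h, neg_zero] at hne
      exact hne rfl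
    have h2 : (UU p M W).card ≠ 0 := by
      intro h
      rw [h] at h1
      simp at h1
    have h3 : mu p (W ⊓ M) ≠ 0 := right_ne_zero_of_mul h1
    have h4 : EA p (W ⊓ M) := by
      by_contra h
      rw [mu_neg h] at h3
      exact h3 rfl
    obtain ⟨U, hU⟩ := Finset.card_ne_zero.1 h2
    rw [UU, Finset.mem_filter] at hU
    obtain ⟨_, hUW, hUc, hUM, hc⟩ := hU
    apply hea
    have h5 := sup_eq (M := M) hMn hMidx hUM hW hUW
    have h6 : ∀ x ∈ W, ∃ u ∈ U, ∃ v ∈ W ⊓ M, u * v = x := by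
      intro x hx
      rw [← h5] at hx
      exact (mem_sup_comm hc).1 hx
    have hUcomm : ∀ x ∈ U, ∀ y ∈ U, x * y = y * x := by
      have : IsCyclic U := isCyclic_of_prime_card hUc
      intro x hx y hy
      have := (IsCyclic.commutative (α := U)).is_comm.comm ⟨x, hx⟩ ⟨y, hy⟩
      exact congrArg Subtype.val this
    have hcm : ∀ u ∈ U, ∀ v ∈ W ⊓ M, u * v = v * u := fun u hu v hv =>
      Subgroup.mem_centralizer_iff.1 (hc hv) u hu
    refine ⟨fun x hx => ?_, fun x hx y hy => ?_⟩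
    · obtain ⟨u, hu, v, hv, rfl⟩ := h6 x hx
      rw [(show Commute u v from hcm u hu v hv).mul_pow, pow_card hUc hu, h4.1 v hv, one_mul]
    · obtain ⟨u, hu, v, hv, rfl⟩ := h6 x hx
      obtain ⟨u', hu', v', hv', rfl⟩ := h6 y hy
      have c1 : Commute u u' := hUcomm u hu u' hu'
      have c2 : Commute u v' := hcm u hu v' hv'
      have c3 : Commute v u' := (hcm u' hu' v hv).symm
      have c4 : Commute v v' := h4.2 v hv v' hv'
      exact ((c1.mul_right c2).mul_left (c3.mul_right c4)).eq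

/-- the change of variables for fixed `U` -/
lemma fix_U (F : Subgroup Γ → ℤ) {G M H U : Subgroup Γ} (hGM : G ≤ M) (hMH : M ≤ H)
    (hMn : ∀ h ∈ H, ∀ m ∈ M, h * m * h⁻¹ ∈ M) (hMidx : M.relIndex H = p)
    (hUH : U ≤ H) (hU : Nat.card U = p) (hUM : ¬ U ≤ M) :
    (∑ V : Subgroup Γ, if V ≤ M ⊓ Subgroup.centralizer (U : Set Γ) ∧ IsPGroup p V ∧
      (G ⊓ Subgroup.centralizer (U : Set Γ)) ⊓ V = ⊥ then
        mu p V * F ((G ⊓ Subgroup.centralizer (U : Set Γ)) ⊓ Subgroup.centralizer (V : Set Γ))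
        else 0) =
    ∑ W : Subgroup Γ, if (W ≤ H ∧ IsPGroup p W ∧ G ⊓ W = ⊥ ∧ ¬ W ≤ M) ∧ U ∈ UU p M W then
      mu p (W ⊓ M) * F (G ⊓ Subgroup.centralizer (W : Set Γ)) else 0 := by
  rw [← Finset.sum_filter, ← Finset.sum_filter]
  refine Finset.sum_bij' (fun V _ => U ⊔ V) (fun W _ => W ⊓ M) ?_ ?_ ?_ ?_ ?_
  · intro V hV
    rw [Finset.mem_filter, le_inf_iff] at hV
    obtain ⟨_, ⟨hVM, hVc⟩, hVp, hVG⟩ := hV
    rw [Finset.mem_filter, UU, Finset.mem_filter]
    refine ⟨Finset.mem_univ _, ⟨sup_le hUH (hVM.trans hMH), ?_, ?_, ?_⟩, Finset.mem_univ _,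
      le_sup_left, hU, hUM, ?_⟩
    · rintro ⟨x, hx⟩
      obtain ⟨u, hu, v, hv, rfl⟩ := (mem_sup_comm hVc).1 hx
      obtain ⟨k, hk⟩ := hVp ⟨v, hv⟩
      refine ⟨k + 1, ?_⟩
      have hk' : v ^ (p ^ k) = 1 := congrArg Subtype.val hk
      have hcm : Commute u v := Subgroup.mem_centralizer_iff.1 (hVc hv) u hu
      apply Subtype.ext
      change (u * v) ^ (p ^ (k + 1)) = 1
      rw [hcm.mul_pow, pow_succ, pow_mul v, hk', one_pow, mul_comm, pow_mul, pow_card hU hu,
        one_pow, one_mul]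
    · rw [eq_bot_iff]
      rintro x ⟨hxG, hx⟩
      obtain ⟨u, hu, v, hv, rfl⟩ := (mem_sup_comm hVc).1 hx
      have h0 : u * v ∈ M := hGM hxG
      have h1 : u ∈ M := by
        have := mul_mem h0 (inv_mem (show v ∈ M from hVM hv))
        rwa [mul_inv_cancel_right] at this
      have h2 := inf_eq_bot hU hUM hu h1
      subst h2
      rw [one_mul] at hxG ⊢
      have h3 : v ∈ (G ⊓ Subgroup.centralizer (U : Set Γ)) ⊓ V := ⟨⟨hxG, hVc hv⟩, hv⟩
      rw [hVG] at h3
      exact h3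
    · intro h
      exact hUM (le_sup_left.trans h)
    · rw [sup_inf hU hUM hVM hVc]
      exact hVc
  · intro W hW
    rw [Finset.mem_filter, UU, Finset.mem_filter] at hW
    obtain ⟨_, ⟨hWH, hWp, hWG, hWM⟩, _, hUW, _, _, hc⟩ := hW
    rw [Finset.mem_filter]
    refine ⟨Finset.mem_univ _, le_inf inf_le_right hc, hWp.to_le inf_le_left, ?_⟩
    rw [eq_bot_iff, ← hWG]
    exact le_inf (inf_le_left.trans inf_le_left) (inf_le_right.trans inf_le_left)
  · intro V hV
    rw [Finset.mem_filter, le_inf_iff] at hV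
    obtain ⟨_, ⟨hVM, hVc⟩, _, _⟩ := hV
    exact sup_inf hU hUM hVM hVc
  · intro W hW
    rw [Finset.mem_filter, UU, Finset.mem_filter] at hW
    obtain ⟨_, ⟨hWH, hWp, hWG, hWM⟩, _, hUW, _, _, hc⟩ := hW
    exact sup_eq hMn hMidx hUM hWH hUW
  · intro V hV
    rw [Finset.mem_filter, le_inf_iff] at hV
    obtain ⟨_, ⟨hVM, hVc⟩, _, _⟩ := hV
    rw [sup_inf hU hUM hVM hVc, centralizer_sup, inf_assoc]

/-- the induction step -/
lemma step (F : Subgroup Γ → ℤ) (hF : IndexP p F) {G M H : Subgroup Γ} (hGM : G ≤ M)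
    (hMH : M ≤ H) (hMn : ∀ h ∈ H, ∀ m ∈ M, h * m * h⁻¹ ∈ M) (hMidx : M.relIndex H = p)
    (ih1 : F M = ∑ U : Subgroup Γ, if U ≤ M ∧ IsPGroup p U ∧ G ⊓ U = ⊥ then
      mu p U * F (G ⊓ Subgroup.centralizer (U : Set Γ)) else 0)
    (ih2 : ∀ U : Subgroup Γ, U ≤ H → Nat.card U = p → ¬ U ≤ M →
      F (M ⊓ Subgroup.centralizer (U : Set Γ)) =
      ∑ V : Subgroup Γ, if V ≤ M ⊓ Subgroup.centralizer (U : Set Γ) ∧ IsPGroup p V ∧
      (G ⊓ Subgroup.centralizer (U : Set Γ)) ⊓ V = ⊥ then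
        mu p V * F ((G ⊓ Subgroup.centralizer (U : Set Γ)) ⊓ Subgroup.centralizer (V : Set Γ))
        else 0) :
    F H = ∑ U : Subgroup Γ, if U ≤ H ∧ IsPGroup p U ∧ G ⊓ U = ⊥ then
      mu p U * F (G ⊓ Subgroup.centralizer (U : Set Γ)) else 0 := by
  have h0 := hF M H hMH hMn hMidx
  rw [finsum_eq_sum_of_fintype] at h0
  have h1 : (∑ U : Subgroup Γ, if U ≤ H ∧ Nat.card U = p ∧ ¬ U ≤ M then
      F (M ⊓ Subgroup.centralizer (U : Set Γ)) else 0) =
      ∑ W : Subgroup Γ, if W ≤ H ∧ IsPGroup p W ∧ G ⊓ W = ⊥ ∧ ¬ W ≤ M then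
        ((UU p M W).card : ℤ) * mu p (W ⊓ M) * F (G ⊓ Subgroup.centralizer (W : Set Γ)) else 0 := by
    have h2 : ∀ U : Subgroup Γ, (if U ≤ H ∧ Nat.card U = p ∧ ¬ U ≤ M then
        F (M ⊓ Subgroup.centralizer (U : Set Γ)) else 0) =
        ∑ W : Subgroup Γ, if (W ≤ H ∧ IsPGroup p W ∧ G ⊓ W = ⊥ ∧ ¬ W ≤ M) ∧ U ∈ UU p M W then
          mu p (W ⊓ M) * F (G ⊓ Subgroup.centralizer (W : Set Γ)) else 0 := by
      intro U
      by_cases hU : U ≤ H ∧ Nat.card U = p ∧ ¬ U ≤ M
      · rw [if_pos hU, ih2 U hU.1 hU.2.1 hU.2.2]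
        exact fix_U F hGM hMH hMn hMidx hU.1 hU.2.1 hU.2.2
      · rw [if_neg hU, eq_comm]
        apply Finset.sum_eq_zero
        intro W _
        rw [if_neg]
        rintro ⟨⟨hWH, _⟩, hUU⟩
        rw [UU, Finset.mem_filter] at hUU
        exact hU ⟨hUU.2.1.trans hWH, hUU.2.2.1, hUU.2.2.2.1⟩
    rw [Finset.sum_congr rfl fun U _ => h2 U, Finset.sum_comm]
    refine Finset.sum_congr rfl fun W _ => ?_
    by_cases hW : W ≤ H ∧ IsPGroup p W ∧ G ⊓ W = ⊥ ∧ ¬ W ≤ M
    · rw [if_pos hW]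
      simp only [hW, not_false_eq_true, and_self, true_and]
      rw [← Finset.sum_filter, Finset.sum_const, nsmul_eq_mul, mul_assoc]
      congr 3
      ext U
      simp
    · rw [if_neg hW]
      apply Finset.sum_eq_zero
      intro U _
      rw [if_neg]
      rintro ⟨h, _⟩
      exact hW h
  rw [h0, ih1, h1, ← Finset.sum_sub_distrib]
  refine Finset.sum_congr rfl fun W _ => ?_
  by_cases hWM : W ≤ M
  · have hWH := hWM.trans hMH
    simp only [hWM, hWH, not_true_eq_false, and_false, if_false, sub_zero, true_and]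
  · simp only [hWM, not_false_eq_true, and_true, false_and, if_false, zero_sub]
    by_cases hW : W ≤ H ∧ IsPGroup p W ∧ G ⊓ W = ⊥
    · rw [if_pos hW, if_pos hW, mu_key hMn hMidx hW.1 hWM hW.2.1]
      ring
    · rw [if_neg hW, if_neg hW, neg_zero]

theorem ind : S_IND := by
  intro p _ Γ _ _ F hF
  suffices hmain : ∀ N : ℕ, ∀ G H : Subgroup Γ, G ≤ H → (∀ h ∈ H, ∀ g ∈ G, h * g * h⁻¹ ∈ G) →
      G.relIndex H = N → (∃ n : ℕ, N = p ^ n) →
      F H = ∑ U : Subgroup Γ, if U ≤ H ∧ IsPGroup p U ∧ G ⊓ U = ⊥ then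
        mu p U * F (G ⊓ Subgroup.centralizer (U : Set Γ)) else 0 by
    intro G H hGH hn hex
    rw [finsum_eq_sum_of_fintype]
    exact hmain _ G H hGH hn rfl hex
  intro N
  induction N using Nat.strong_induction_on with
  | _ N ih =>
    intro G H hGH hn hN hex
    obtain ⟨n, hNn⟩ := hex
    cases n with
    | zero =>
      rw [pow_zero] at hNn
      rw [hNn, Subgroup.relIndex_eq_one] at hN
      have hGH' : G = H := le_antisymm hGH hN
      subst hGH'
      rw [Finset.sum_eq_single ⊥]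
      · rw [if_pos ⟨bot_le, IsPGroup.of_bot, inf_bot_eq _⟩]
        have hea : EA p (⊥ : Subgroup Γ) := by
          refine ⟨fun x hx => ?_, fun x hx y hy => ?_⟩
          · rw [Subgroup.mem_bot.1 hx, one_pow]
          · rw [Subgroup.mem_bot.1 hx, Subgroup.mem_bot.1 hy]
        rw [mu_pos hea, Subgroup.card_bot]
        have : Subgroup.centralizer ((⊥ : Subgroup Γ) : Set Γ) = ⊤ := by
          rw [eq_top_iff]
          intro x _
          rw [Subgroup.mem_centralizer_iff]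
          intro h hh
          have : h = 1 := Subgroup.mem_bot.1 hh
          rw [this, one_mul, mul_one]
        rw [this, inf_top_eq]
        simp
      · intro U _ hU
        rw [if_neg]
        rintro ⟨h1, _, h2⟩
        rw [inf_eq_right.2 h1] at h2
        exact hU h2
      · intro h
        exact absurd (Finset.mem_univ _) h
    | succ n =>
      rw [hNn] at hN
      obtain ⟨M, hGM, hMH, hMn, hMidx, hGMidx⟩ := exists_M hGH hn hN
      have hp1 : 1 < p := (Fact.out : p.Prime).one_lt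
      have hlt : p ^ n < N := by
        rw [hNn]
        exact Nat.pow_lt_pow_right hp1 (Nat.lt_succ_self n)
      have hnM : ∀ h ∈ M, ∀ g ∈ G, h * g * h⁻¹ ∈ G := fun h hh => hn h (hMH hh)
      refine step F hF hGM hMH hMn hMidx (ih (p ^ n) hlt G M hGM hnM hGMidx ⟨n, rfl⟩) ?_
      intro U _ _ _
      have hle : G ⊓ Subgroup.centralizer (U : Set Γ) ≤ M ⊓ Subgroup.centralizer (U : Set Γ) :=
        inf_le_inf_right _ hGM
      have hrel : (G ⊓ Subgroup.centralizer (U : Set Γ)).relIndex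
          (M ⊓ Subgroup.centralizer (U : Set Γ)) =
          G.relIndex (M ⊓ Subgroup.centralizer (U : Set Γ)) := by
        rw [← Subgroup.inf_relIndex_right G (M ⊓ Subgroup.centralizer (U : Set Γ)),
          ← inf_assoc, inf_eq_left.2 hGM]
      have hdvd := relIndex_dvd (G := G) (M := M) (K := M ⊓ Subgroup.centralizer (U : Set Γ))
        hnM inf_le_left
      rw [hGMidx] at hdvd
      obtain ⟨k, hk, hk'⟩ := (Nat.dvd_prime_pow Fact.out).1 hdvd
      refine ih (p ^ k) (lt_of_le_of_lt (Nat.pow_le_pow_right hp1.le hk) hlt) _ _ hle ?_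
        (by rw [hrel, hk']) ⟨k, rfl⟩
      rintro h ⟨hh1, hh2⟩ g ⟨hg1, hg2⟩
      refine ⟨hn h (hMH hh1) g hg1, ?_⟩
      have e1 : h ∈ Subgroup.centralizer (U : Set Γ) := hh2
      have e2 : g ∈ Subgroup.centralizer (U : Set Γ) := hg2
      exact Subgroup.mul_mem _ (Subgroup.mul_mem _ e1 e2) (Subgroup.inv_mem _ e1)

end Pool.Agent.Q19.KRX
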